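import Mathlib
import Pool.Agent.H97R2.BP.Defs
import Pool.Agent.H97R2.BP.Defs2

/-!
Task CMP: matrix coefficients of `∑ a ⊗ C a C`.
-/

open scoped ComplexOrder InnerProductSpace ComplexConjugate TensorProduct
open Finset H759R2.Kad H710R2.DP

noncomputable section

namespace H97R2.BP

namespace ZZ196

variable {H : Type} [NormedAddCommGroup H] [InnerProductSpace ℂ H]

/-- A conjugate-linear isometry reverses inner products. -/
theorem inner_conj (C : H ≃ₗᵢ⋆[ℂ] H) (x y : H) : ⟪C x, C y⟫_ℂ = ⟪y, x⟫_ℂ := by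
  have h1 : ‖C x + C y‖ = ‖x + y‖ := by rw [← map_add, LinearIsometryEquiv.norm_map]
  have h2 : ‖C x - C y‖ = ‖x - y‖ := by rw [← map_sub, LinearIsometryEquiv.norm_map]
  have h3 : ‖C x - Complex.I • C y‖ = ‖x + Complex.I • y‖ := by
    have : C x - Complex.I • C y = C (x + Complex.I • y) := by
      rw [map_add, LinearIsometryEquiv.map_smulₛₗ]; simp [sub_eq_add_neg]
    rw [this, LinearIsometryEquiv.norm_map]
  have h4 : ‖C x + Complex.I • C y‖ = ‖x - Complex.I • y‖ := by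
    have : C x + Complex.I • C y = C (x - Complex.I • y) := by
      rw [map_sub, LinearIsometryEquiv.map_smulₛₗ]; simp
    rw [this, LinearIsometryEquiv.norm_map]
  have e1 := inner_eq_sum_norm_sq_div_four (𝕜 := ℂ) (C x) (C y)
  have e2 := inner_eq_sum_norm_sq_div_four (𝕜 := ℂ) x y
  have e3 : ⟪y, x⟫_ℂ = conj ⟪x, y⟫_ℂ := (inner_conj_symm y x).symm
  rw [e1, e3, e2]
  simp only [RCLike.I_to_complex, h1, h2, h3, h4]
  simp only [map_div₀, map_add, map_sub, map_mul, map_pow, Complex.conj_ofReal, Complex.conj_I,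
    map_ofNat, Complex.coe_algebraMap]
  ring

theorem inner_smul2 {G : Type} [NormedAddCommGroup G] [InnerProductSpace ℂ G] (c c' : ℂ)
    (x y : G) : ⟪c • x, c' • y⟫_ℂ = conj c * (c' * ⟪x, y⟫_ℂ) := by
  rw [inner_smul_left, inner_smul_right]

theorem tmul_smul2 (c c' : ℂ) (x y : H ⊗[ℂ] H) :
    ⟪c • x, c' • y⟫_ℂ = conj c * (c' * ⟪x, y⟫_ℂ) := inner_smul2 c c' x y

theorem norm_sum_sq {d : ℕ} (C : H ≃ₗᵢ⋆[ℂ] H) (e : Fin d → H) (he : Orthonormal ℂ e)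
    (g : Fin d → ℝ) (hg : ∀ k, 0 ≤ g k) :
    ‖∑ k, ((√(g k) : ℝ) : ℂ) • (e k ⊗ₜ[ℂ] C (e k))‖ ^ 2 = ∑ k, g k := by
  have ho : ∀ k l, ⟪e k ⊗ₜ[ℂ] C (e k), e l ⊗ₜ[ℂ] C (e l)⟫_ℂ = if k = l then 1 else 0 := by
    intro k l
    rw [TensorProduct.inner_tmul, inner_conj]
    rw [orthonormal_iff_ite.mp he, orthonormal_iff_ite.mp he]
    by_cases h : k = l
    · simp [h]
    · simp [h]
  have h1 : ((‖∑ k, ((√(g k) : ℝ) : ℂ) • (e k ⊗ₜ[ℂ] C (e k))‖ ^ 2 : ℝ) : ℂ) =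
      ((∑ k, g k : ℝ) : ℂ) := by
    have : ⟪∑ k, ((√(g k) : ℝ) : ℂ) • (e k ⊗ₜ[ℂ] C (e k)),
        ∑ k, ((√(g k) : ℝ) : ℂ) • (e k ⊗ₜ[ℂ] C (e k))⟫_ℂ =
        ((‖∑ k, ((√(g k) : ℝ) : ℂ) • (e k ⊗ₜ[ℂ] C (e k))‖ : ℝ) : ℂ) ^ 2 :=
      inner_self_eq_norm_sq_to_K (𝕜 := ℂ) (∑ k, ((√(g k) : ℝ) : ℂ) • (e k ⊗ₜ[ℂ] C (e k)))
    push_cast at this ⊢
    rw [← this, sum_inner]
    refine Finset.sum_congr rfl fun k _ => ?_
    rw [inner_sum]
    simp only [tmul_smul2, ho]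
    rw [Finset.sum_eq_single k]
    · simp only [if_true, Complex.conj_ofReal, mul_one]
      rw [← Complex.ofReal_mul, Real.mul_self_sqrt (hg k)]
    · intro l _ hl
      rw [if_neg (Ne.symm hl)]; simp
    · intro h; exact absurd (Finset.mem_univ _) h
  exact_mod_cast h1

end ZZ196

open ZZ196

theorem bp_cmp : Z_cmp := by
  intro H _ _ C hC ι _ a ρ hρ d e e' he he' g f hg hf hg1 hf1
  set h : H ⊗[ℂ] H := ∑ l, ((√(f l) : ℝ) : ℂ) • (e' l ⊗ₜ[ℂ] C (e' l)) with hh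
  set k : H ⊗[ℂ] H := ∑ j, ((√(g j) : ℝ) : ℂ) • (e j ⊗ₜ[ℂ] C (e j)) with hk
  have hh1 : ‖h‖ ^ 2 = 1 := by rw [hh, norm_sum_sq C e' he' f hf, hf1]
  have hk1 : ‖k‖ ^ 2 = 1 := by rw [hk, norm_sum_sq C e he g hg, hg1]
  have hh2 : ‖h‖ = 1 := by
    have := norm_nonneg h
    nlinarith
  have hk2 : ‖k‖ = 1 := by
    have := norm_nonneg k
    nlinarith
  set T := ∑ i, tn C (a i) (a i) with hT
  have hin : ⟪k, T h⟫_ℂ = ((∑ i, ∑ k, ∑ l, √(g k * f l) * ‖⟪e k, a i (e' l)⟫_ℂ‖ ^ 2 : ℝ) : ℂ) := by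
    have hTh : T h = ∑ i, ∑ l, ((√(f l) : ℝ) : ℂ) • (a i (e' l) ⊗ₜ[ℂ] C (a i (e' l))) := by
      rw [hT, _root_.sum_apply]
      refine Finset.sum_congr rfl fun i _ => ?_
      rw [hh, map_sum]
      refine Finset.sum_congr rfl fun l _ => ?_
      rw [map_smul]
      congr 1
      unfold tn
      rw [TensorProduct.mapL_tmul, cj_apply, hC]
    rw [hTh, inner_sum]
    push_cast
    refine Finset.sum_congr rfl fun i _ => ?_
    rw [hk, sum_inner]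
    refine Finset.sum_congr rfl fun j _ => ?_
    rw [inner_sum]
    refine Finset.sum_congr rfl fun l _ => ?_
    rw [tmul_smul2, TensorProduct.inner_tmul, inner_conj,
      Real.sqrt_mul (hg j), Complex.conj_ofReal]
    have : ⟪a i (e' l), e j⟫_ℂ = conj ⟪e j, a i (e' l)⟫_ℂ := (inner_conj_symm _ _).symm
    rw [this, Complex.mul_conj, Complex.normSq_eq_norm_sq]
    push_cast
    ring
  have hle : ‖⟪k, T h⟫_ℂ‖ ≤ ρ := by
    calc ‖⟪k, T h⟫_ℂ‖ ≤ ‖k‖ * ‖T h‖ := norm_inner_le_norm (𝕜 := ℂ) k (T h)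
      _ ≤ ‖k‖ * (‖T‖ * ‖h‖) := by gcongr; exact T.le_opNorm h
      _ = ‖T‖ := by rw [hk2, hh2]; ring
      _ ≤ ρ := hρ
  rw [hin, Complex.norm_real] at hle
  exact (le_abs_self _).trans hle

end H97R2.BP
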